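import Pool.Agent.helper84.NR.SpecW

/-!
# nrw:CA2: concatenation of two access paths through a common edge
-/

set_option autoImplicit false

namespace Pool.Agent.helper84.NR

open scoped Classical
open Finset

theorem CA2 : CA2_stmt := by
  intro V F M x y A B v w m m' a b hAx hBy hAvw hBvw nxw nvy hacc hacc'
  obtain ⟨hm, a0, am, ainj, aE, aN, aF⟩ := hacc
  obtain ⟨hm', b0, bm, binj, bE, bN, bF⟩ := hacc'
  obtain ⟨E1, E2⟩ := h_EDG V F M
  have hA : ∀ j, j ≤ m → OnV M.toCyc A (a j) := by
    intro j hj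
    rcases Nat.eq_zero_or_pos j with h | h
    · rw [h, a0]
      exact hAx
    · obtain ⟨i, rfl⟩ : ∃ i, j = i + 1 := ⟨j - 1, by omega⟩
      exact (E1 A _ _ (aE i (by omega))).2.1
  have hB : ∀ j, j ≤ m' → OnV M.toCyc B (b j) := by
    intro j hj
    rcases Nat.eq_zero_or_pos j with h | h
    · rw [h, b0]
      exact hBy
    · obtain ⟨i, rfl⟩ : ∃ i, j = i + 1 := ⟨j - 1, by omega⟩
      exact (E1 B _ _ (bE i (by omega))).2.1
  have hvw : v ≠ w := (E1 A v w hAvw).2.2
  have hAv : OnV M.toCyc A v := (E1 A v w hAvw).1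
  have hAw : OnV M.toCyc A w := (E1 A v w hAvw).2.1
  have hBv : OnV M.toCyc B v := (E1 B v w hBvw).1
  have hBw : OnV M.toCyc B w := (E1 B v w hBvw).2.1
  have hxw : x ≠ w := by
    intro h
    refine aN 0 (by omega) ⟨B, hBy, ?_⟩
    rw [a0, h]
    exact hBw
  have hvy : v ≠ y := by
    intro h
    refine bN 0 (by omega) ⟨A, hAx, ?_⟩
    rw [b0, ← h]
    exact hAv
  obtain ⟨q, hq⟩ : ∃ q : ℕ → V, q = fun j => if j ≤ m then a j else b (m + 1 + m' - j) := ⟨_, rfl⟩
  have qa : ∀ j, j ≤ m → q j = a j := by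
    intro j hj
    rw [hq]
    exact if_pos hj
  have qb : ∀ j, m < j → q j = b (m + 1 + m' - j) := by
    intro j hj
    rw [hq]
    exact if_neg (by omega)
  have qE1 : ∀ k, k ≤ m → OnE M.toCyc A s(q k, q (k + 1)) := by
    intro k hk
    rcases Nat.lt_or_ge k m with h | h
    · rw [qa k hk, qa (k + 1) h]
      exact aE k h
    · have hkm : k = m := by omega
      rw [qa k hk, qb (k + 1) (by omega), hkm, am]
      have e : m + 1 + m' - (m + 1) = m' := by omega
      rw [e, bm]
      exact hAvw
  have qE2 : ∀ k, m ≤ k → k < m + 1 + m' → OnE M.toCyc B s(q k, q (k + 1)) := by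
    intro k hk hk2
    rcases Nat.eq_or_lt_of_le hk with h | h
    · rw [qa k (by omega), qb (k + 1) (by omega), ← h, am]
      have e : m + 1 + m' - (m + 1) = m' := by omega
      rw [e, bm]
      exact hBvw
    · rw [qb k h, qb (k + 1) (by omega)]
      obtain ⟨l, hl⟩ : ∃ l, l = m + m' - k := ⟨_, rfl⟩
      have e1 : m + 1 + m' - k = l + 1 := by omega
      have e2 : m + 1 + m' - (k + 1) = l := by omega
      rw [e1, e2, Sym2.eq_swap]
      exact bE l (by omega)
  have qadj : ∀ i, i < m + 1 + m' → Adj M.toCyc (q i) (q (i + 1)) := by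
    intro i hi
    rcases Nat.lt_or_ge m i with h | h
    · exact ⟨B, qE2 i h.le hi⟩
    · exact ⟨A, qE1 i h⟩
  -- indices of the vertices on faces at `x`
  have hx1 : ∀ f, OnV M.toCyc f x → ∀ j, j ≤ m + 1 + m' → OnV M.toCyc f (q j) → j ≤ m + 1 := by
    intro f hf j hj hfj
    by_contra hlt
    rw [qb j (by omega)] at hfj
    exact bN (m + 1 + m' - j) (by omega) ⟨f, hf, hfj⟩
  have hx2 : ∀ f, OnV M.toCyc f x → f ≠ A → ∀ j, j ≤ m + 1 + m' → OnV M.toCyc f (q j) → j ≤ 1 := by
    intro f hf hfA j hj hfj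
    have h1 := hx1 f hf j hj hfj
    rcases Nat.lt_or_ge m j with h | h
    · exfalso
      have hjm : j = m + 1 := by omega
      rw [qb j h, hjm] at hfj
      have e : m + 1 + m' - (m + 1) = m' := by omega
      rw [e, bm] at hfj
      exact nxw ⟨f, (M.poly f A hfA x w hxw hf hfj hAx hAw).1⟩
    · rw [qa j h] at hfj
      rcases Nat.eq_zero_or_pos j with h0 | h0
      · omega
      · exact (aF f hf hfA j h0 h hfj).le
  have hy1 : ∀ f, OnV M.toCyc f y → ∀ j, j ≤ m + 1 + m' → OnV M.toCyc f (q j) → m ≤ j := by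
    intro f hf j hj hfj
    by_contra hlt
    rw [qa j (by omega)] at hfj
    exact aN j (by omega) ⟨f, hf, hfj⟩
  have hy2 : ∀ f, OnV M.toCyc f y → f ≠ B → ∀ j, j ≤ m + 1 + m' → OnV M.toCyc f (q j) → m + m' ≤ j := by
    intro f hf hfB j hj hfj
    have h1 := hy1 f hf j hj hfj
    rcases Nat.lt_or_ge m j with h | h
    · rw [qb j h] at hfj
      rcases Nat.eq_zero_or_pos (m + 1 + m' - j) with h0 | h0
      · omega
      · have := bF f hf hfB (m + 1 + m' - j) h0 (by omega) hfj
        omega
    · exfalso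
      have hjm : j = m := by omega
      rw [qa j h, hjm, am] at hfj
      exact nvy ⟨f, (M.poly f B hfB v y hvy hfj hf hBv hBy).1⟩
  refine ⟨m + 1 + m', q, ?_, ?_, ?_, qadj, ?_⟩
  · rw [qa 0 (by omega), a0]
  · rw [qb (m + 1 + m') (by omega), Nat.sub_self, b0]
  · have hcross : ∀ i j, i ≤ m → m < j → j ≤ m + 1 + m' → q i ≠ q j := by
      intro i j hi hj hj2 hij
      rw [qa i hi, qb j hj] at hij
      rcases Nat.lt_or_ge i m with h | h
      · refine aN i h ⟨B, hBy, ?_⟩
        rw [hij]
        exact hB _ (by omega)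
      · have him : i = m := by omega
        rcases Nat.lt_or_ge (m + 1 + m' - j) m' with h2 | h2
        · refine bN _ h2 ⟨A, hAx, ?_⟩
          rw [← hij]
          exact hA i hi
        · have e : m + 1 + m' - j = m' := by omega
          rw [e, bm, him, am] at hij
          exact hvw hij
    intro i j hi hj hij
    rcases Nat.lt_or_ge m i with h1 | h1 <;> rcases Nat.lt_or_ge m j with h2 | h2
    · rw [qb i h1, qb j h2] at hij
      have := binj _ _ (by omega) (by omega) hij
      omega
    · exact absurd hij.symm (hcross j i h2 h1 hi)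
    · exact absurd hij (hcross i j h1 h2 hj)
    · rw [qa i h1, qa j h2] at hij
      exact ainj i j h1 h2 hij
  · intro f hf i j hij hj hfi hfj k hik hkj
    rcases hf with hf | hf
    · by_cases hfA : f = A
      · rw [hfA] at hf hfj ⊢
        have := hx1 A hf j hj hfj
        exact qE1 k (by omega)
      · have h1 := hx2 f hf hfA j hj hfj
        have hk0 : k = 0 := by omega
        have hj1 : j = 1 := by omega
        have hi0 : i = 0 := by omega
        rw [hk0]
        rw [hi0] at hfi
        rw [hj1] at hfj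
        exact E2 f _ _ (qadj 0 (by omega)) hfi hfj
    · by_cases hfB : f = B
      · rw [hfB] at hf hfi ⊢
        have := hy1 B hf i (by omega) hfi
        exact qE2 k (by omega) (by omega)
      · have h1 := hy2 f hf hfB i (by omega) hfi
        have hk0 : k = i := by omega
        have hj1 : j = i + 1 := by omega
        rw [hk0]
        rw [hj1] at hfj
        exact E2 f _ _ (qadj i (by omega)) hfi hfj

end Pool.Agent.helper84.NR
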